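import Pool.Agent.N598.OHF.Main

/-!
# Optimal colouring of odd-hole-free graphs is NP-hard

The reduction is from exact cover by 3-sets. It is described for the complement, where colourings
are partitions into cliques: the graph has a vertex for every element, and for every triple and
each of its three elements `x` three vertices `a`, `b`, `c`, forming with `x` the triangles
`x, a, b` and `a, b, c`, while the three vertices `c` of a triple form a further triangle. This
graph has no clique with four vertices and no induced cycle with four or five vertices, so that
its complement has no induced cycle of length at least five, and it can be partitioned into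
triangles if and only if there is an exact cover.
-/

namespace Pool.Agent.Results.MP_27b024_lc.ColouringNPHard

open Pool.Agent.NPC Pool.Agent.H257R2.EAF Pool.Agent.N598.OHF

/-- **Colouring odd-hole-free graphs is NP-hard.**
The problem COLORING (given the adjacency matrix of a graph and `k`, is the graph `k`-colourable?)
is in `NP`; every language in `NP` is reduced to it, by a polynomial-time many-one reduction all of
whose outputs are odd-hole-free graphs (in fact, graphs without induced cycles of length at least
five and without independent sets of size four); there is a polynomial-time algorithm deciding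
`k`-colourability of every odd-hole-free graph (or only of every graph without induced cycles of
length at least five and without independent sets of size four) if and only if `P = NP`; and if
there is a polynomial-time algorithm that outputs, for every such graph, a proper colouring with
`χ(G)` colours, then `P = NP`. -/
theorem result :
    InNPP Coloring ∧
    (∀ L : Set (List Bool), InNP L → ∃ f : List Bool → List Bool, PolyTime f ∧
      ∀ w, ∃ (n : ℕ) (G : SimpleGraph (Fin n)) (k : ℕ), f w = input G k ∧
        OddHoleFree G ∧ Small G ∧ (w ∈ L ↔ G.Colorable k)) ∧
    (SolvableOn (fun _ G => OddHoleFree G) ↔ PEqNP) ∧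
    (SolvableOn (fun _ G => Small G) ↔ PEqNP) ∧
    (FindableOn (fun _ G => OddHoleFree G) → PEqNP) ∧
    (FindableOn (fun _ G => Small G) → PEqNP) := by
  refine ⟨inNPP_coloring, ?_, ⟨?_, ?_⟩, ⟨Pool.Agent.N598.OHF.pEqNP_of_solvable, ?_⟩, ?_,
    pEqNP_of_findable⟩
  · intro L hL
    obtain ⟨f, hf, h⟩ := Pool.Agent.N598.OHF.hard L hL
    refine ⟨f, hf, fun w => ?_⟩
    obtain ⟨n, G, k, h1, h2, h3⟩ := h w
    exact ⟨n, G, k, h1, h2.oddHoleFree, h2, h3⟩
  · exact fun h => Pool.Agent.N598.OHF.pEqNP_of_solvable (h.mono fun n G hG => hG.oddHoleFree)
  · exact fun h => (solvable_of h).mono fun _ _ _ => trivial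
  · exact fun h => (solvable_of h).mono fun _ _ _ => trivial
  · rintro ⟨A, hA, hA'⟩
    exact pEqNP_of_findable ⟨A, hA, fun n G hG => hA' n G hG.oddHoleFree⟩

end Pool.Agent.Results.MP_27b024_lc.ColouringNPHard
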